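import Mathlib

/-!
# A Cayley graph of the integers without a nested vertex-isoperimetric ordering

For `d = 1` and `U = {1, 5, 6}` there are no optimal sets `S₄ ⊆ S₆ ⊆ S₇` with `4`, `6` and `7`
elements. Hence no ordering of the integers has only optimal initial segments.

Write `U ∪ {0} = {0, 1} + {0, 5}`. If `T = S + {0, 1}`, the boundary of `S` has
`|T \ S| + |(T + 5) \ T|` elements. The first number is the number `c` of runs of `S`, the second
number is at least the number `q` of residue classes modulo `5` of `T`. If `q ≤ 4` each run of `S`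
has at most `q - 1` elements. It follows that the optimal sets with `7` elements are the intervals.
The optimal sets with `4` elements are the translates of `{0, 1, 5, 6}`, and a set with `6` elements
between `{0, 1, 5, 6}` and `{0, ..., 6}` has a boundary of `7` elements, while the
boundary of `{0, ..., 5}` has `6` elements.
-/

namespace Pool.Agent.Results.MP_852f00_co.NoNestedOrdering

open Finset

/-- The vertex boundary of the finite set `S` in the directed Cayley graph of `ℤ^d` with generating
set `U`: the number of points outside `S` of the form `x + u` with `x ∈ S` and `u ∈ U`. -/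
def bdry {d : ℕ} (U S : Finset (Fin d → ℤ)) : ℕ :=
  (((S ×ˢ U).image fun p => p.1 + p.2) \ S).card

/-- `S` has the least vertex boundary among all sets with the same number of points. -/
def Optimal {d : ℕ} (U S : Finset (Fin d → ℤ)) : Prop :=
  ∀ T : Finset (Fin d → ℤ), T.card = S.card → bdry U S ≤ bdry U T

/-! ### Sets of integers -/

/-- The boundary for `U = {1, 5, 6}` in the integers. -/
def bd (S : Finset ℤ) : ℕ :=
  (((S ×ˢ ({1, 5, 6} : Finset ℤ)).image fun p => p.1 + p.2) \ S).card

lemma mem_bset {S : Finset ℤ} {y : ℤ} :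
    y ∈ (((S ×ˢ ({1, 5, 6} : Finset ℤ)).image fun p => p.1 + p.2) \ S) ↔
      (y - 1 ∈ S ∨ y - 5 ∈ S ∨ y - 6 ∈ S) ∧ y ∉ S := by
  simp only [mem_sdiff, mem_image, mem_product, mem_insert, mem_singleton, Prod.exists]
  constructor
  · rintro ⟨⟨a, b, ⟨ha, hb⟩, rfl⟩, hy⟩
    refine ⟨?_, hy⟩
    rcases hb with rfl | rfl | rfl
    · left; simpa using ha
    · right; left; simpa using ha
    · right; right; simpa using ha
  · rintro ⟨h, hy⟩
    refine ⟨?_, hy⟩
    rcases h with h | h | h
    · exact ⟨y - 1, 1, ⟨h, by simp⟩, by ring⟩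
    · exact ⟨y - 5, 5, ⟨h, by simp⟩, by ring⟩
    · exact ⟨y - 6, 6, ⟨h, by simp⟩, by ring⟩

/-- The set `S + {0, 1}`. -/
def dbl (S : Finset ℤ) : Finset ℤ := S ∪ S.image (· + 1)

lemma mem_dbl {S : Finset ℤ} {y : ℤ} : y ∈ dbl S ↔ y ∈ S ∨ y - 1 ∈ S := by
  simp only [dbl, mem_union, mem_image]
  constructor
  · rintro (h | ⟨x, hx, rfl⟩)
    · exact Or.inl h
    · right; simpa using hx
  · rintro (h | h)
    · exact Or.inl h
    · exact Or.inr ⟨y - 1, h, by ring⟩

/-- The ends of the runs of `S`, moved by `1`. -/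
def ends (S : Finset ℤ) : Finset ℤ := (dbl S) \ S

lemma mem_ends {S : Finset ℤ} {y : ℤ} : y ∈ ends S ↔ y - 1 ∈ S ∧ y ∉ S := by
  simp only [ends, mem_sdiff, mem_dbl]
  tauto

/-- The residue classes modulo `5` of `S + {0, 1}`. -/
def cls (S : Finset ℤ) : Finset ℤ := (dbl S).image (· % 5)

lemma ends_add_cls_le (S : Finset ℤ) : (ends S).card + (cls S).card ≤ bd S := by
  classical
  -- the largest element of a residue class
  have hmax : ∀ r ∈ cls S, ∃ t ∈ dbl S, t % 5 = r ∧ t + 5 ∉ dbl S := by
    intro r hr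
    have hne : ((dbl S).filter (fun t => t % 5 = r)).Nonempty := by
      obtain ⟨t, ht, h⟩ := mem_image.1 hr
      exact ⟨t, mem_filter.2 ⟨ht, h⟩⟩
    obtain ⟨t, ht, hm⟩ := exists_max_image _ id hne
    rw [mem_filter] at ht
    refine ⟨t, ht.1, ht.2, fun h => ?_⟩
    have := hm (t + 5) (mem_filter.2 ⟨h, by omega⟩)
    simp at this
  choose! g hg1 hg2 hg3 using hmax
  have hdisj : Disjoint (ends S) ((cls S).image (fun r => g r + 5)) := by
    rw [disjoint_left]
    rintro y hy hy'
    obtain ⟨r, hr, rfl⟩ := mem_image.1 hy'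
    exact hg3 r hr (mem_sdiff.1 hy).1
  have hinj : Set.InjOn (fun r => g r + 5) (cls S : Set ℤ) := by
    intro r hr r' hr' h
    simp only at h
    rw [← hg2 r hr, ← hg2 r' hr']
    congr 1
    linarith
  rw [← card_image_of_injOn hinj, ← card_union_of_disjoint hdisj]
  apply card_le_card
  intro y hy
  rw [mem_bset]
  rcases mem_union.1 hy with h | h
  · rw [mem_ends] at h
    exact ⟨Or.inl h.1, h.2⟩
  · obtain ⟨r, hr, rfl⟩ := mem_image.1 h
    have h1 := mem_dbl.1 (hg1 r hr)
    have h2 : g r + 5 ∉ S := fun h => hg3 r hr (mem_dbl.2 (Or.inl h))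
    refine ⟨?_, h2⟩
    rcases h1 with h1 | h1
    · right; left
      convert h1 using 1
      ring
    · right; right
      convert h1 using 1
      ring

/-- The end of the run of a point. -/
lemma exists_end (S : Finset ℤ) (x : ℤ) (hx : x ∈ S) :
    ∃ j : ℕ, (∀ i : ℕ, i ≤ j → x + i ∈ S) ∧ x + j + 1 ∉ S := by
  classical
  have hex : ∃ j : ℕ, x + j + 1 ∉ S := by
    by_contra hcon
    push Not at hcon
    have : Set.InjOn (fun j : ℕ => x + j + 1) (Set.univ : Set ℕ) := by
      intro a _ b _ h
      simp only at h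
      exact_mod_cast (by linarith : (a : ℤ) = b)
    have hfin : (Set.univ : Set ℕ).Finite :=
      Set.Finite.of_finite_image ((S.finite_toSet).subset (by
        rintro _ ⟨j, -, rfl⟩
        exact hcon j)) this
    exact Set.infinite_univ hfin
  refine ⟨Nat.find hex, ?_, Nat.find_spec hex⟩
  intro i hi
  rcases Nat.eq_zero_or_pos i with h0 | h0
  · subst h0; simpa using hx
  · have := Nat.find_min hex (m := i - 1) (by omega)
    rw [not_not] at this
    have e : x + ((i - 1 : ℕ) : ℤ) + 1 = x + i := by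
      have : ((i - 1 : ℕ) : ℤ) = i - 1 := by omega
      rw [this]; ring
    rwa [e] at this

/-- If `S + {0, 1}` does not meet all the classes modulo `5`, the runs of `S` are short. -/
lemma card_le (S : Finset ℤ) (hq : (cls S).card ≤ 4) :
    S.card ≤ (ends S).card * ((cls S).card - 1) := by
  classical
  have h := exists_end S
  choose! j hj1 hj2 using h
  have hle : ∀ x ∈ S, j x + 2 ≤ (cls S).card := by
    intro x hx
    by_contra hcon
    push Not at hcon
    have : (range ((cls S).card + 1)).card ≤ (cls S).card := by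
      apply card_le_card_of_injOn (fun i : ℕ => (x + i) % 5)
      · intro i hi
        have hi' : i < (cls S).card + 1 := by simpa using hi
        have hmem : x + i ∈ dbl S := by
          rw [mem_dbl]
          rcases Nat.eq_zero_or_pos i with h0 | h0
          · left; subst h0; simpa using hx
          · right
            have := hj1 x hx (i - 1) (by omega)
            have e : x + ((i - 1 : ℕ) : ℤ) = x + i - 1 := by
              have : ((i - 1 : ℕ) : ℤ) = i - 1 := by omega
              rw [this]; ring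
            rwa [e] at this
        exact mem_coe.2 (mem_image_of_mem _ hmem)
      · intro a ha b hb hab
        have ha' : a < (cls S).card + 1 := by simpa using ha
        have hb' : b < (cls S).card + 1 := by simpa using hb
        simp only at hab
        omega
    rw [card_range] at this
    omega
  calc S.card ≤ ((ends S) ×ˢ (range ((cls S).card - 1))).card := by
        apply card_le_card_of_injOn (fun x => (x + j x + 1, j x))
        · intro x hx
          have hx' : x ∈ S := hx
          simp only [coe_product, Set.mem_prod, mem_coe, mem_range, mem_ends]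
          refine ⟨⟨?_, hj2 x hx'⟩, ?_⟩
          · have := hj1 x hx' (j x) le_rfl
            convert this using 1
            ring
          · have := hle x hx'
            omega
        · intro a _ b _ hab
          simp only [Prod.mk.injEq] at hab
          obtain ⟨h1, h2⟩ := hab
          rw [h2] at h1
          linarith
    _ = _ := by rw [card_product, card_range]

lemma cls_card_le (S : Finset ℤ) : (cls S).card ≤ 5 := by
  have : cls S ⊆ Finset.Ico (0 : ℤ) 5 := by
    intro r hr
    obtain ⟨t, -, rfl⟩ := mem_image.1 hr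
    rw [mem_Ico]
    omega
  simpa using card_le_card this

/-- An optimal set with seven elements is an interval. -/
lemma seven (S : Finset ℤ) (h7 : S.card = 7) (hb : bd S ≤ 6) : ∃ a, S = Finset.Icc a (a + 6) := by
  classical
  have h1 := ends_add_cls_le S
  have hc : (ends S).card ≤ 1 := by
    rcases Nat.lt_or_ge 4 (cls S).card with h | h
    · omega
    · exfalso
      have h2 := card_le S h
      rw [h7] at h2
      have h3 : (ends S).card ≤ 6 - (cls S).card := by omega
      have h4 : 7 ≤ (6 - (cls S).card) * ((cls S).card - 1) :=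
        le_trans h2 (Nat.mul_le_mul_right _ h3)
      interval_cases (cls S).card <;> omega
  have hne : S.Nonempty := by
    rw [← card_pos]; omega
  obtain ⟨M, hM, hMmax⟩ := exists_max_image S id hne
  obtain ⟨a, ha, hamin⟩ := exists_min_image S id hne
  simp only [id] at hMmax hamin
  have hMe : M + 1 ∈ ends S := by
    rw [mem_ends]
    refine ⟨by simpa using hM, fun h => ?_⟩
    have := hMmax _ h
    omega
  obtain ⟨j, hj1, hj2⟩ := exists_end S a ha
  have hje : a + j + 1 ∈ ends S := by
    rw [mem_ends]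
    refine ⟨?_, hj2⟩
    have := hj1 j le_rfl
    convert this using 1
    ring
  have heq : a + j + 1 = M + 1 := card_le_one.1 hc _ hje _ hMe
  have hS : S = Finset.Icc a M := by
    ext x
    rw [mem_Icc]
    constructor
    · intro hx
      exact ⟨hamin x hx, hMmax x hx⟩
    · rintro ⟨h1, h2⟩
      have := hj1 (x - a).toNat (by omega)
      have e : a + ((x - a).toNat : ℤ) = x := by
        rw [Int.toNat_of_nonneg (by omega)]; ring
      rwa [e] at this
  refine ⟨a, ?_⟩
  have hcard : (Finset.Icc a M).card = 7 := hS ▸ h7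
  rw [Int.card_Icc] at hcard
  have : M = a + 6 := by omega
  rw [hS, this]

/-- The finite check. -/
lemma check : ∀ S₆ ∈ (Finset.Icc (0 : ℤ) 6).powersetCard 6, ∀ S₄ ∈ S₆.powersetCard 4,
    ¬ (bd S₄ ≤ 5 ∧ bd S₆ ≤ 6) := by
  decide +kernel

lemma bd_translate (S : Finset ℤ) (a : ℤ) : bd (S.image (· + a)) = bd S := by
  classical
  unfold bd
  rw [← card_image_of_injective (((S ×ˢ ({1, 5, 6} : Finset ℤ)).image fun p => p.1 + p.2) \ S)
    (add_left_injective a)]
  congr 1
  ext y
  constructor
  · intro h0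
    obtain ⟨h, h'⟩ := mem_bset.1 h0
    refine mem_image.2 ⟨y - a, mem_bset.2 ?_, by ring⟩
    simp only [mem_image] at h h'
    constructor
    · rcases h with ⟨x, hx, e⟩ | ⟨x, hx, e⟩ | ⟨x, hx, e⟩
      · left; convert hx using 1; linarith
      · right; left; convert hx using 1; linarith
      · right; right; convert hx using 1; linarith
    · intro hx
      exact h' ⟨y - a, hx, by ring⟩
  · intro h0
    obtain ⟨x, hx, rfl⟩ := mem_image.1 h0
    rw [mem_bset] at hx
    refine mem_bset.2 ?_
    simp only [mem_image]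
    constructor
    · rcases hx.1 with h | h | h
      · left; exact ⟨_, h, by ring⟩
      · right; left; exact ⟨_, h, by ring⟩
      · right; right; exact ⟨_, h, by ring⟩
    · rintro ⟨z, hz, e⟩
      have : z = x := by linarith
      subst this
      exact hx.2 hz

lemma no_chain (S₄ S₆ S₇ : Finset ℤ) (h4 : S₄.card = 4) (h6 : S₆.card = 6) (h7 : S₇.card = 7)
    (h46 : S₄ ⊆ S₆) (h67 : S₆ ⊆ S₇) (b4 : bd S₄ ≤ 5) (b6 : bd S₆ ≤ 6) (b7 : bd S₇ ≤ 6) :
    False := by
  classical
  obtain ⟨a, ha⟩ := seven S₇ h7 b7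
  have hinj : Function.Injective (fun x : ℤ => x + (-a)) := add_left_injective (-a)
  apply check (S₆.image (· + (-a))) ?_ (S₄.image (· + (-a))) ?_
  · rw [bd_translate, bd_translate]
    exact ⟨b4, b6⟩
  · rw [mem_powersetCard]
    refine ⟨?_, by rw [card_image_of_injective _ hinj, h6]⟩
    intro y hy
    obtain ⟨x, hx, rfl⟩ := mem_image.1 hy
    have := h67 hx
    rw [ha, mem_Icc] at this
    rw [mem_Icc]
    omega
  · rw [mem_powersetCard]
    exact ⟨image_subset_image h46, by rw [card_image_of_injective _ hinj, h4]⟩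

/-! ### Transfer to `ℤ^1` -/

/-- The generating set `{1, 5, 6}` of `ℤ^1`. -/
def U₁ : Finset (Fin 1 → ℤ) := {fun _ => 1, fun _ => 5, fun _ => 6}

/-- `ℤ^1` is `ℤ`. -/
def ev (x : Fin 1 → ℤ) : ℤ := x 0

lemma ev_inj : Function.Injective ev := by
  intro x y h
  funext i
  fin_cases i
  exact h

lemma bdry_eq (S : Finset (Fin 1 → ℤ)) : bdry U₁ S = bd (S.image ev) := by
  classical
  unfold bdry bd
  rw [← card_image_of_injective _ ev_inj]
  congr 1
  rw [image_sdiff _ _ ev_inj, image_image]
  congr 1
  ext y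
  simp only [mem_image, mem_product, Prod.exists, U₁, mem_insert, mem_singleton,
    Function.comp_apply]
  constructor
  · rintro ⟨a, b, ⟨ha, hb⟩, rfl⟩
    refine ⟨ev a, ev b, ⟨⟨a, ha, rfl⟩, ?_⟩, rfl⟩
    rcases hb with rfl | rfl | rfl <;> simp [ev]
  · rintro ⟨a, b, ⟨⟨x, hx, rfl⟩, hb⟩, rfl⟩
    exact ⟨x, fun _ => b, ⟨hx, by rcases hb with rfl | rfl | rfl <;> simp⟩, rfl⟩

/-- The embedding of `ℤ` in `ℤ^1`. -/
def emb (S : Finset ℤ) : Finset (Fin 1 → ℤ) := S.image (fun x _ => x)

lemma image_emb (S : Finset ℤ) : (emb S).image ev = S := by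
  classical
  ext x
  simp [emb, ev]

lemma emb_card (S : Finset ℤ) : (emb S).card = S.card := by
  rw [emb]
  apply card_image_of_injective
  intro a b h
  exact congrFun h 0

/-- There are no optimal sets `S₄ ⊆ S₆ ⊆ S₇`. -/
lemma no_chain' (S₄ S₆ S₇ : Finset (Fin 1 → ℤ)) (h4 : S₄.card = 4) (h6 : S₆.card = 6)
    (h7 : S₇.card = 7) (h46 : S₄ ⊆ S₆) (h67 : S₆ ⊆ S₇) (o4 : Optimal U₁ S₄)
    (o6 : Optimal U₁ S₆) (o7 : Optimal U₁ S₇) : False := by
  classical
  have b4 := o4 (emb {0, 1, 5, 6}) (by rw [emb_card, h4]; decide)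
  have b6 := o6 (emb (Finset.Icc 0 5)) (by rw [emb_card, h6]; decide)
  have b7 := o7 (emb (Finset.Icc 0 6)) (by rw [emb_card, h7]; decide)
  rw [bdry_eq, bdry_eq, image_emb] at b4 b6 b7
  have c4 : bd {0, 1, 5, 6} = 5 := by decide +kernel
  have c6 : bd (Finset.Icc 0 5) = 6 := by decide +kernel
  have c7 : bd (Finset.Icc 0 6) = 6 := by decide +kernel
  rw [c4] at b4
  rw [c6] at b6
  rw [c7] at b7
  refine no_chain (S₄.image ev) (S₆.image ev) (S₇.image ev) ?_ ?_ ?_ (image_subset_image h46)
    (image_subset_image h67) b4 b6 b7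
  · rw [card_image_of_injective _ ev_inj, h4]
  · rw [card_image_of_injective _ ev_inj, h6]
  · rw [card_image_of_injective _ ev_inj, h7]

lemma closure_U₁ : AddSubgroup.closure (U₁ : Set (Fin 1 → ℤ)) = ⊤ := by
  rw [eq_top_iff]
  intro x _
  have h1 : (fun _ => 1 : Fin 1 → ℤ) ∈ AddSubgroup.closure (U₁ : Set (Fin 1 → ℤ)) :=
    AddSubgroup.subset_closure (by simp [U₁])
  have h2 := AddSubgroup.zsmul_mem _ h1 (x 0)
  convert h2 using 1
  funext i
  fin_cases i
  simp

/-- **Not every Cayley graph of `ℤ^d` has a nested vertex-isoperimetric ordering.**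
(1) There are `d ≥ 1` and a finite set `U` of nonzero vectors which generates `ℤ^d` for which there is
no sequence `w` enumerating `ℤ^d` without repetitions, all of whose initial segments
`{w 0, ..., w (n - 1)}` have the least vertex boundary among all sets with `n` points.
(2) Precisely, this holds for `d = 1` and `U = {1, 5, 6}`, for which there is not even a chain
`S₄ ⊆ S₆ ⊆ S₇` of optimal sets with `4`, `6` and `7` points. -/
theorem result :
    (¬ ∀ (d : ℕ) (U : Finset (Fin d → ℤ)), 1 ≤ d → (0 : Fin d → ℤ) ∉ U →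
      AddSubgroup.closure (U : Set (Fin d → ℤ)) = ⊤ →
      ∃ w : ℕ → (Fin d → ℤ), Function.Bijective w ∧
        ∀ n : ℕ, 1 ≤ n → Optimal U ((Finset.range n).image w)) ∧
    ¬ ∃ S₄ S₆ S₇ : Finset (Fin 1 → ℤ), S₄ ⊆ S₆ ∧ S₆ ⊆ S₇ ∧ S₄.card = 4 ∧ S₆.card = 6 ∧
      S₇.card = 7 ∧ Optimal {fun _ => 1, fun _ => 5, fun _ => 6} S₄ ∧
      Optimal {fun _ => 1, fun _ => 5, fun _ => 6} S₆ ∧
      Optimal {fun _ => 1, fun _ => 5, fun _ => 6} S₇ := by
  classical
  have main : ¬ ∃ S₄ S₆ S₇ : Finset (Fin 1 → ℤ), S₄ ⊆ S₆ ∧ S₆ ⊆ S₇ ∧ S₄.card = 4 ∧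
      S₆.card = 6 ∧ S₇.card = 7 ∧ Optimal U₁ S₄ ∧ Optimal U₁ S₆ ∧ Optimal U₁ S₇ := by
    rintro ⟨S₄, S₆, S₇, h46, h67, h4, h6, h7, o4, o6, o7⟩
    exact no_chain' S₄ S₆ S₇ h4 h6 h7 h46 h67 o4 o6 o7
  refine ⟨?_, main⟩
  intro h
  obtain ⟨w, hw, ho⟩ := h 1 U₁ le_rfl (by
    intro h0
    simp only [U₁, mem_insert, mem_singleton] at h0
    rcases h0 with h0 | h0 | h0 <;> simpa using congrFun h0 0) closure_U₁
  apply main
  refine ⟨(range 4).image w, (range 6).image w, (range 7).image w,
    image_subset_image (range_subset_range.2 (by norm_num)),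
    image_subset_image (range_subset_range.2 (by norm_num)), ?_, ?_, ?_,
    ho 4 (by norm_num), ho 6 (by norm_num), ho 7 (by norm_num)⟩ <;>
  rw [card_image_of_injective _ hw.injective, card_range]

end Pool.Agent.Results.MP_852f00_co.NoNestedOrdering
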